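import Pool.Agent.MWGI.StmtsE

/-!
# Row DTT of block MWGI: block by block
-/

namespace Pool.Agent.MWGI.H62

open Pool.Agent.Helper14_MV Pool.Agent.Helper2_MV Pool.Agent.MVO Pool.Agent.MWL Pool.Agent.MWS
  Pool.Agent.MWH Pool.Agent.MWGI

theorem ct_deg {n k : ℕ} {B B' : ℕ → List ℕ} (hok : OkB k B) (heq : MWHP.EqT n k B B') (t z : ℕ)
    (hz : NS k z) (hj : ∃ j ≤ k, z ∈ (if j < t then B' j else B j)) :
    2 ≤ deg k (fun j => (if j < t then B' j else B j).count z) := by
  obtain ⟨j, hj, hm⟩ := hj
  by_cases hall : ∀ i ≤ k, (if i < t then B' i else B i).count z = (B i).count z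
  · have e : deg k (fun j => (if j < t then B' j else B j).count z) =
        deg k (fun j => (B j).count z) := by
      unfold deg
      refine Finset.sum_congr rfl fun i hi => ?_
      exact hall i (by have := Finset.mem_range.1 hi; omega)
    rw [e]
    have h1 : 1 ≤ (B j).count z := by
      rw [← hall j hj]
      exact List.count_pos_iff.2 hm
    exact hok.ml j hj z (List.count_pos_iff.1 h1)
  · obtain ⟨i, hi, hne⟩ : ∃ i ≤ k, ¬ (if i < t then B' i else B i).count z = (B i).count z := by
      by_contra hcon
      exact hall (fun i hi => by_contra (fun hne => hcon ⟨i, hi, hne⟩))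
    have hit : i < t := by
      by_contra hcon
      rw [if_neg hcon] at hne
      exact hne rfl
    have h2 : 2 ≤ (if i < t then B' i else B i).count z := by
      rw [if_pos hit] at hne ⊢
      have h3 : (B i).count z = (B' i).count z ∨
          (2 ≤ (B i).count z ∧ 2 ≤ (B' i).count z ∧ (B i).count z ≡ (B' i).count z [MOD n]) :=
        heq z hz i hi
      rcases h3 with h3 | ⟨_, h3, _⟩
      · exact absurd h3.symm hne
      · exact h3
    refine h2.trans ?_
    unfold deg
    exact Finset.single_le_sum (f := fun j => (if j < t then B' j else B j).count z)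
      (fun _ _ => Nat.zero_le _) (Finset.mem_range.2 (by omega))

theorem dtt (hBBL : BblStmt) : DttStmt := by
  intro n k θ B B' hBG hF hM hS
  obtain ⟨hok, hok', heq, hgi⟩ := hF
  -- the interpolating families
  let C : ℕ → ℕ → List ℕ := fun t j => if j < t then B' j else B j
  have key : ∀ t, t ≤ k + 1 → RR θ (asm k B) (asm k (C t)) := by
    intro t
    induction t with
    | zero =>
      intro _
      have : asm k (C 0) = asm k B := asm_congr (fun j _ => by simp [C])
      rw [this]
      exact RR.refl _
    | succ t ih =>
      intro ht1
      have ht : t ≤ k := by omega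
      refine θ.trans (ih (by omega)) ?_
      have f1 : asm k (C t) = pre B' t ++ (B t ++ suf B t (k - t)) := by
        rw [asm_split ht (C t)]
        rw [pre_congr (B' := B') (fun j hj => by simp [C, hj]),
          suf_congr (B' := B) (fun j h1 _ => if_neg (by omega : ¬ j < t))]
        simp [C]
      have f2 : asm k (C (t + 1)) = pre B' t ++ (B' t ++ suf B t (k - t)) := by
        rw [asm_split ht (C (t + 1))]
        rw [pre_congr (B' := B') (fun j hj => by simp [C, (by omega : j < t + 1)]),
          suf_congr (B' := B) (fun j h1 _ => if_neg (by omega : ¬ j < t + 1))]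
        simp [C]
      have e1 : asm k (C t) = Wd (pre B' t) (suf B t (k - t)) (B t) := f1
      have e2 : asm k (C (t + 1)) = Wd (pre B' t) (suf B t (k - t)) (B' t) := f2
      show RR θ (asm k (C t)) (asm k (C (t + 1)))
      rw [e1, e2]
      set H : List ℕ := (B t).dedup.filter (fun x => decide (2 ≤ (B t).count x)) with hH
      have hmemH : ∀ x, x ∈ H ↔ 2 ≤ (B t).count x := by
        intro x
        rw [hH, List.mem_filter, List.mem_dedup]
        constructor
        · rintro ⟨_, h⟩; simpa using h
        · intro h
          exact ⟨List.count_pos_iff.1 (by omega), by simpa using h⟩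
      have hq : ∀ c, NS k c → ∀ j ≤ k, (B j).count c = (B' j).count c ∨
          (2 ≤ (B j).count c ∧ 2 ≤ (B' j).count c ∧ (B j).count c ≡ (B' j).count c [MOD n]) :=
        fun c hc j hj => heq c hc j hj
      -- light letters of `B t`
      have hlight : ∀ a, NS k a → (B t).count a = 1 →
          a ∈ pre B' t ∨ a ∈ suf B t (k - t) := by
        intro a hns h1
        have h1' : ty B a t = 1 := h1
        rcases hgi a hns with hv | ⟨u, v, hl⟩
        · rcases hv t ht with h | h <;> omega
        · have hp : ∃ p ≤ k, p ≠ t ∧ (B p).count a = 1 := by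
            by_cases hu : t = u
            · refine ⟨v, hl.vk, ?_, hl.av⟩
              have := hl.uv
              omega
            · by_cases hv : t = v
              · refine ⟨u, ?_, fun h => hu h.symm, hl.au⟩
                have := hl.uv
                have := hl.vk
                omega
              · have := hl.az t ht hu hv
                omega
          obtain ⟨p, hpk, hpt, hpa⟩ := hp
          rcases Nat.lt_or_gt_of_ne hpt with h | h
          · left
            refine mem_pre.2 (Or.inr ⟨p, h, List.count_pos_iff.1 ?_⟩)
            rcases hq a hns p hpk with h5 | ⟨h5, _, _⟩ <;> omega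
          · right
            exact mem_suf.2 (Or.inr ⟨p, h, by omega, List.count_pos_iff.1 (by omega)⟩)
      have hcount : ∀ a ∈ B t, a ∉ H → (B t).count a = 1 := by
        intro a ha hn
        have h1 : 1 ≤ (B t).count a := List.count_pos_iff.2 ha
        have h2 : ¬ 2 ≤ (B t).count a := fun h => hn ((hmemH a).2 h)
        omega
      have hnd : H.Nodup := (List.nodup_dedup _).filter _
      -- letters of the context
      have hctx : ∀ z ∈ pre B' t ++ suf B t (k - t), NS k z →
          ∃ j ≤ k, j ≠ t ∧ z ∈ (if j < t then B' j else B j) := by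
        intro z hz hN
        rcases List.mem_append.1 hz with hz | hz
        · rcases mem_pre.1 hz with h | ⟨j, hj, h⟩
          · exact absurd ⟨h.1, by omega⟩ hN
          · exact ⟨j, by omega, by omega, by rw [if_pos hj]; exact h⟩
        · rcases mem_suf.1 hz with h | ⟨j, h1, h2, h⟩
          · exact absurd ⟨by omega, by omega⟩ hN
          · exact ⟨j, by omega, by omega, by rw [if_neg (by omega)]; exact h⟩
      have hO : Ok1 k H (pre B' t) (suf B t (k - t)) (B t) := by
        refine ⟨hnd, fun x hx => (hmemH x).1 hx, fun a ha hn => ?_, fun z hz hN => ?_⟩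
        · exact ⟨hcount a ha hn, hok.ok t ht a ha, hlight a (hok.ok t ht a ha) (hcount a ha hn)⟩
        · rw [← f1, count_asm hN]
          obtain ⟨j, hj, _, hm⟩ := hctx z hz hN
          exact ct_deg hok heq t z hN ⟨j, hj, hm⟩
      have hnoH : ∀ a, NS k a → a ∉ H → (B t).count a = (B' t).count a := by
        intro a hns hn
        rcases hq a hns t ht with h | ⟨h, _, _⟩
        · exact h
        · exact absurd ((hmemH a).2 h) hn
      have hO' : Ok1 k H (pre B' t) (suf B t (k - t)) (B' t) := by
        refine ⟨hnd, fun x hx => ?_, fun a ha hn => ?_, fun z hz hN => ?_⟩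
        · have hx2 := (hmemH x).1 hx
          have hxm : x ∈ B t := List.count_pos_iff.1 (by omega)
          rcases hq x (hok.ok t ht x hxm) t ht with h | ⟨_, h, _⟩ <;> omega
        · have hns := hok'.ok t ht a ha
          have h1 := hnoH a hns hn
          have h2 : 1 ≤ (B' t).count a := List.count_pos_iff.2 ha
          have h3 : a ∈ B t := List.count_pos_iff.1 (by omega)
          have h4 := hcount a h3 hn
          exact ⟨by omega, hns, hlight a hns h4⟩
        · rw [← f2, count_asm hN]
          obtain ⟨j, hj, hjt, hm⟩ := hctx z hz hN
          refine ct_deg hok heq (t + 1) z hN ⟨j, hj, ?_⟩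
          by_cases h : j < t
          · rw [if_pos h] at hm
            rw [if_pos (by omega)]
            exact hm
          · rw [if_neg h] at hm
            rw [if_neg (by omega)]
            exact hm
      refine hBBL n θ θ hBG (fun _ _ h => h) H (pre B' t) (suf B t (k - t)) (B t) (B' t) hO hO'
        ?_ ?_ ?_ ?_ ?_ ?_
      · intro a hn
        by_cases hns : NS k a
        · have h1 := hnoH a hns hn
          rw [← List.count_pos_iff, ← List.count_pos_iff, h1]
        · constructor
          · intro h; exact absurd (hok.ok t ht a h) hns
          · intro h; exact absurd (hok'.ok t ht a h) hns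
      · intro x hx
        have hx2 := (hmemH x).1 hx
        have hxm : x ∈ B t := List.count_pos_iff.1 (by omega)
        rcases hq x (hok.ok t ht x hxm) t ht with h | ⟨_, _, h⟩
        · rw [h]
        · exact h
      · intro x hx a ha hn hne
        exact (hM t ht x a (fun e => hn (e ▸ hx)) ((hmemH x).1 hx) (hcount a ha hn)).1 hne H hn
      · intro x hx a ha hn hne
        exact (hM t ht x a (fun e => hn (e ▸ hx)) ((hmemH x).1 hx) (hcount a ha hn)).2.1 hne H hn
      · intro x hx a ha hn
        exact (hM t ht x a (fun e => hn (e ▸ hx)) ((hmemH x).1 hx) (hcount a ha hn)).2.2 H hn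
      · intro a ha b hb hna hnb hab h1 h0
        exact hS t ht a b hab (hcount a ha hna) (hcount b hb hnb) h1 h0 H hna hnb
  have hfin := key (k + 1) le_rfl
  have e : asm k (C (k + 1)) = asm k B' :=
    asm_congr (fun j hj => by simp [C, (by omega : j < k + 1)])
  rw [e] at hfin
  exact hfin

end Pool.Agent.MWGI.H62
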